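import Pool.Agent.MWNP.Stmts

/-!
# Block MWNP, row P5X: the clause for five blocks in base (h), period n

Adapted from the row N5X of helper25.
-/

namespace Pool.Agent.MWNP.H89

open Pool.Agent.Helper14_MV Pool.Agent.Helper2_MV Pool.Agent.MVO Pool.Agent.MWL Pool.Agent.MWS
  Pool.Agent.MWF Pool.Agent.MWN Pool.Agent.MWNP

/-- the first word of the clause -/
def uU : ℕ → List ℕ := fun j => if j = 0 then [0, 1] else if j = 1 then [0, 0] else
  if j = 2 then [1] else if j = 3 then [0, 0] else []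

/-- the second word of the clause -/
def vV : ℕ → List ℕ := fun j => if j = 0 then [1, 0] else if j = 1 then [0, 0] else
  if j = 2 then [1] else if j = 3 then [0, 0] else []

theorem okU : OkB 3 uU := by
  constructor
  · intro j hj c hc
    unfold NS
    interval_cases j <;> simp [uU] at hc <;> omega
  · intro j hj c hc
    have h : c = 0 ∨ c = 1 := by
      interval_cases j <;> simp [uU] at hc <;> omega
    rcases h with rfl | rfl
    · decide
    · decide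

theorem okV : OkB 3 vV := by
  constructor
  · intro j hj c hc
    unfold NS
    interval_cases j <;> simp [vV] at hc <;> omega
  · intro j hj c hc
    have h : c = 0 ∨ c = 1 := by
      interval_cases j <;> simp [vV] at hc <;> omega
    rcases h with rfl | rfl
    · decide
    · decide

theorem twU : Two01 3 uU := by
  intro j hj c hc
  interval_cases j <;> simp [uU] at hc <;> omega

theorem twV : Two01 3 vV := by
  intro j hj c hc
  interval_cases j <;> simp [vV] at hc <;> omega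

theorem sh0 (n : ℕ) : Shn n 3 (ty uU 0) (ty vV 0) := by
  intro j hj
  left
  interval_cases j <;> rfl

theorem sh1 (n : ℕ) : Shn n 3 (ty uU 1) (ty vV 1) := by
  intro j hj
  left
  interval_cases j <;> rfl

theorem absF {n : ℕ} {β : FIC} (h : Op n β Bit.F) :
    Ab n (FC.ofFIC β) 3 (wo 2 (ty uU 0)) 2 := by
  have h1 : (FC.ofFIC β).R 2 (v3 2 0 2) (ad n (v3 2 0 2) 1) := h
  have hm : BMap 2 3 (fun j => j + 1) := ⟨fun i j hij _ => by show i + 1 ≤ j + 1; omega,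
    fun i hi => by show i + 1 ≤ 3; omega⟩
  have h2 := (FC.ofFIC β).push 3 (fun j => j + 1) hm h1
  have h3 := (FC.ofFIC β).add (sg 0 1) h2
  refine (FC.ofFIC β).ext ?_ ?_ h3
  · intro j hj
    interval_cases j <;> decide
  · intro j hj
    interval_cases j <;> simp [psh, ad, v3, sg, wo, ty, uU, Finset.sum_range_succ]

theorem p5x (hPPH : PphStmt) (hPCX : PcxStmt) (hPCO : PcoStmt) (hARR : MWL.ArrStmt)
    (hPHB : PhbStmt) : P5xStmt := by
  intro n β hb h3 hm hD1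
  by_contra hC
  have hF : ¬ Op n β Bit.F := by
    intro hF
    apply hC
    exact hPCO n β hb h3 3 uU vV 0 1 2 okU okV twU twV (sh0 n) (sh1 n) (Or.inl ⟨rfl, rfl⟩) (by omega)
      (by decide) (by decide) (by decide) (absF hF)
  obtain ⟨hEF, hGF, -, hDD, -⟩ := hARR n (FC.ofFIC β) (hPHB n β hb h3).2.2.1
  have hE : ¬ Op n β Bit.E := fun h => hF (hEF h)
  have hG : ¬ Op n β Bit.G := fun h => hF (hGF h)
  have hD0 : ¬ Op n β (Bit.D 0) := fun h => hD1 (hDD 0 h)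
  have hX : ∀ x ∈ [8, 5, 3, 2, 1, 0], x = 8 ∨ (x = 0 ∧ ¬ Op n β Bit.E) ∨
      (x = 1 ∧ ¬ Op n β Bit.F) ∨ (x = 2 ∧ ¬ Op n β Bit.G) ∨
      (x = 3 ∧ ¬ Op n β (Bit.D 0)) ∨ (x = 5 ∧ ¬ Op n β (Bit.D 1)) ∨
        (x = 10 ∧ ¬ Op n β (Bit.J 3)) := by
    intro x hx
    simp only [List.mem_cons, List.not_mem_nil, or_false] at hx
    rcases hx with rfl | rfl | rfl | rfl | rfl | rfl
    · exact Or.inl rfl
    · exact Or.inr (Or.inr (Or.inr (Or.inr (Or.inr (Or.inl ⟨rfl, hD1⟩)))))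
    · exact Or.inr (Or.inr (Or.inr (Or.inr (Or.inl ⟨rfl, hD0⟩))))
    · exact Or.inr (Or.inr (Or.inr (Or.inl ⟨rfl, hG⟩)))
    · exact Or.inr (Or.inr (Or.inl ⟨rfl, hF⟩))
    · exact Or.inr (Or.inl ⟨rfl, hE⟩)
  have hX8 : ∀ x ∈ [8], x = 8 ∨ (x = 0 ∧ ¬ Op n β Bit.E) ∨
      (x = 1 ∧ ¬ Op n β Bit.F) ∨ (x = 2 ∧ ¬ Op n β Bit.G) ∨
      (x = 3 ∧ ¬ Op n β (Bit.D 0)) ∨ (x = 5 ∧ ¬ Op n β (Bit.D 1)) ∨
        (x = 10 ∧ ¬ Op n β (Bit.J 3)) := by
    intro x hx
    rw [List.mem_singleton] at hx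
    exact Or.inl hx
  have c1 : Clo β 3 (cd4 Cd.one Cd.one Cd.z Cd.pos) :=
    hPCX n β hb h3 [8, 5, 3, 2, 1, 0] 3 _ hX (by decide +kernel)
  have c2 : Clo β 3 (cd4 Cd.one Cd.z Cd.one Cd.z) :=
    hPCX n β hb h3 [8] 3 _ hX8 (by decide +kernel)
  have c3 : Clo β 3 (cd4 Cd.one Cd.pos Cd.z Cd.pos) :=
    hPCX n β hb h3 [8, 5, 3, 2, 1, 0] 3 _ hX (by decide +kernel)
  have key := hPPH n β hb h3 hm 3 0 (cd4 Cd.one Cd.one Cd.z Cd.pos) (cd4 Cd.one Cd.z Cd.one Cd.z)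
    (cd4 Cd.one Cd.pos Cd.z Cd.pos) (cd4 Cd.one Cd.z Cd.one Cd.z) false (v4 1 2 0 2)
    (v4 1 1 0 1) (v4 1 0 1 0) (v4 1 0 1 0) (by decide +kernel) (by decide) (by decide)
    (by decide) (by decide) c1 c2 c3 c2
  rcases key with h | h
  · apply hC
    have h' : RR β [0, 1, 2, 0, 3, 1, 4, 0, 0] [1, 0, 2, 0, 3, 1, 4, 0, 0] := h
    have h2 := h'.sub (fun c => if c = 3 then [0, 3] else [c])
    exact h2
  · exact hC h

end Pool.Agent.MWNP.H89
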